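import Pool.Agent.H317.GH.Stm
import Pool.Graph.R_pool_sql_team_seeded_64922ed1.Results.MP_a2a22c_al.NoSmallRepresentations

/-!
Project GH (helper317), task IRN: nontrivial representations of degree `n` of a group with the finite quotients of
`SL_n(ℤ)` are absolutely irreducible.
-/

set_option autoImplicit false

namespace Pool.Agent.H501.GH

open Matrix Module Pool.Agent.H317.GR Pool.Agent.H317.GH

/-- a representation as a homomorphism to the monoid of endomorphisms -/
noncomputable def T {Λ : Type} [Group Λ] {K : Type} [Field K] {n : ℕ} (τ : Λ →* GL (Fin n) K) :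
    Λ →* Module.End K (Fin n → K) where
  toFun g := Matrix.toLin' (τ g).val
  map_one' := by simp [Matrix.toLin'_one]; rfl
  map_mul' g h := by
    rw [map_mul]
    show Matrix.toLin' ((τ g).val * (τ h).val) = _
    rw [Matrix.toLin'_mul]
    rfl

theorem T_apply {Λ : Type} [Group Λ] {K : Type} [Field K] {n : ℕ} (τ : Λ →* GL (Fin n) K) (g : Λ) (v : Fin n → K) :
    T τ g v = (τ g).val *ᵥ v := Matrix.toLin'_apply _ _

theorem irn : S_BUR → S_IRN := by
  intro hB n hn Λ _ _ hq K _ _ _ τ hτ
  refine hB K Λ n τ ?_
  intro W hW
  by_contra hcon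
  rw [not_or] at hcon
  obtain ⟨hW0, hW1⟩ := hcon
  obtain ⟨h1, h2, -, -⟩ := Pool.Agent.Results.MP_a2a22c_al.NoSmallRepresentations.result.{0} n hn Λ
    (fun Q _ _ f hf => hq Q ⟨f, hf⟩)
  have small : ∀ (M : Type) [AddCommGroup M] [Module K M] [FiniteDimensional K M], finrank K M < n →
      ∀ (ρ : Λ →* Module.End K M) (l : Λ), ρ l = 1 := by
    intro M _ _ _ hM ρ l
    classical
    let b := Module.finBasis K M
    refine h2 K M (Finset.univ.image b) ?_ ?_ ρ l
    · refine lt_of_le_of_lt Finset.card_image_le ?_
      simpa using hM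
    · have h3 := b.span_eq
      simpa using h3
  have hWle : ∀ g, ∀ v ∈ W, T τ g v ∈ W := by
    intro g v hv
    rw [T_apply]
    exact hW g v hv
  let ρW : Λ →* Module.End K W :=
    { toFun := fun g => (T τ g).restrict (hWle g)
      map_one' := by
        ext v
        simp [LinearMap.restrict_apply]
      map_mul' := fun g h => by
        ext v
        simp [LinearMap.restrict_apply] }
  let ρQ : Λ →* Module.End K ((Fin n → K) ⧸ W) :=
    { toFun := fun g => W.mapQ W (T τ g) (hWle g)
      map_one' := by
        ext v
        simp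
      map_mul' := fun g h => by
        apply LinearMap.ext
        intro x
        obtain ⟨v, rfl⟩ := W.mkQ_surjective x
        simp }
  have hdim : finrank K (Fin n → K) = n := by simp
  have hfW : finrank K W < n := by
    have := Submodule.finrank_lt (K := K) hW1
    rwa [hdim] at this
  have hfQ : finrank K ((Fin n → K) ⧸ W) < n := by
    have h3 := W.finrank_quotient_add_finrank
    rw [hdim] at h3
    have h4 : 0 < finrank K W := by
      rw [Module.finrank_pos_iff]
      exact (Submodule.nontrivial_iff_ne_bot).2 hW0
    omega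
  have hw : ∀ g, ∀ v ∈ W, T τ g v = v := by
    intro g v hv
    have h3 := small W hfW ρW g
    have h4 := congrArg Subtype.val (LinearMap.congr_fun h3 ⟨v, hv⟩)
    exact h4
  have hv : ∀ g v, T τ g v - v ∈ W := by
    intro g v
    have h3 := small _ hfQ ρQ g
    have h4 := LinearMap.congr_fun h3 (W.mkQ v)
    have h5 : W.mkQ (T τ g v) = W.mkQ v := h4
    exact (Submodule.Quotient.eq W).1 h5
  have hcomm : ∀ g h, τ g * τ h = τ h * τ g := by
    intro g h
    have h3 : T τ g * T τ h = T τ h * T τ g := by
      apply LinearMap.ext
      intro v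
      have e1 : T τ g (T τ h v) = T τ g v + (T τ h v - v) := by
        have := hw g _ (hv h v)
        rw [map_sub] at this
        rw [← this]
        abel
      have e2 : T τ h (T τ g v) = T τ h v + (T τ g v - v) := by
        have := hw h _ (hv g v)
        rw [map_sub] at this
        rw [← this]
        abel
      show T τ g (T τ h v) = T τ h (T τ g v)
      rw [e1, e2]
      abel
    rw [← map_mul, ← map_mul] at h3
    have h4 : (τ (g * h)).val = (τ (h * g)).val := Matrix.toLin'.injective h3
    have h5 : τ (g * h) = τ (h * g) := Units.ext h4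
    rwa [map_mul, map_mul] at h5
  obtain ⟨g, hg⟩ := hτ
  apply hg
  let _ : CommGroup τ.range :=
    { (inferInstance : Group τ.range) with
      mul_comm := by
        rintro ⟨_, a, rfl⟩ ⟨_, b, rfl⟩
        exact Subtype.ext (hcomm a b) }
  have h3 := h1 τ.range τ.rangeRestrict g
  exact congrArg Subtype.val h3

end Pool.Agent.H501.GH
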